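import Mathlib
import Pool.Agent.V5helper2.NR.Stm

set_option autoImplicit false
open Finset Filter Topology MeasureTheory
open scoped ComplexConjugate ENNReal

namespace Pool.Agent.V5helper76.NR

open Pool.Agent.Helper498.NCR Pool.Agent.V5helper2.CF Pool.Agent.V5helper2.NR

noncomputable section

theorem t_ORT : Pool.Agent.V5helper2.NR.S_ORT := by
  intro Ω _ μ _ T hT g hg hg1 horth z hz
  set U := koop hT with hU
  set y := (memLp_bdd (μ := μ) hg hg1).toLp g with hy
  set w : ℕ → Ω → ℂ := fun H x => (H : ℂ)⁻¹ * ∑ h ∈ range H, z ^ h * g (T^[h] x) with hw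
  have hw1 : ∀ H x, ‖w H x‖ ≤ 1 := by
    intro H x
    simp only [hw]
    rw [norm_mul, norm_inv, Complex.norm_natCast]
    rcases Nat.eq_zero_or_pos H with h | h
    · rw [h]; simp
    have hH0 : (0 : ℝ) < H := by exact_mod_cast h
    rw [inv_mul_le_iff₀ hH0, mul_one]
    refine (norm_sum_le _ _).trans ?_
    calc ∑ j ∈ range H, ‖z ^ j * g (T^[j] x)‖ ≤ ∑ j ∈ range H, (1 : ℝ) := by
          refine Finset.sum_le_sum fun j _ => ?_
          rw [norm_mul, norm_pow, hz, one_pow, one_mul]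
          exact hg1 _
      _ = H := by simp
  have hwm : ∀ H, Measurable (w H) := fun H =>
    Measurable.const_mul (Finset.measurable_sum _ fun j _ =>
      (hg.comp (hT.measurable.iterate j)).const_mul _) _
  set q : ℕ → Ω → ℂ := fun H x => ((‖w H x‖ ^ 2 : ℝ) : ℂ) with hq
  have hqn : ∀ H x, ‖q H x‖ = ‖w H x‖ ^ 2 := by
    intro H x
    simp only [hq]
    rw [Complex.norm_real, Real.norm_of_nonneg (by positivity)]
  have hq1 : ∀ H x, ‖q H x‖ ≤ 1 := by
    intro H x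
    rw [hqn]
    exact pow_le_one₀ (norm_nonneg _) (hw1 H x)
  have hqm : ∀ H, Measurable (q H) := fun H =>
    Complex.measurable_ofReal.comp ((hwm H).norm.pow_const 2)
  set Q : ℕ → Lp ℂ 2 μ := fun H => (memLp_bdd (μ := μ) (hqm H) (hq1 H)).toLp (q H) with hQ
  have hQn : ∀ H, ‖Q H‖ ≤ ‖tavg U z H y‖ := by
    intro H
    refine Lp.norm_le_norm_of_ae_le ?_
    filter_upwards [(memLp_bdd (μ := μ) (hqm H) (hq1 H)).coeFn_toLp,
      avg_coe hT (memLp_bdd (μ := μ) hg hg1) z H] with x h1 h2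
    rw [hQ]
    simp only
    rw [h1]
    have h3 : (tavg U z H y : Lp ℂ 2 μ) x = w H x := h2
    rw [h3, hqn, sq]
    exact mul_le_of_le_one_left (norm_nonneg _) (hw1 H x)
  have hQ0 : Tendsto (fun H => ‖Q H‖) atTop (𝓝 0) := by
    have h1 := (tavg_tendsto_zero U z hz y horth).norm
    rw [norm_zero] at h1
    exact squeeze_zero (fun H => norm_nonneg _) hQn h1
  have hch : ∀ k : ℕ, ∃ H : ℕ, 1 ≤ H ∧ ‖Q H‖ ≤ (1 / 2 : ℝ) ^ k := by
    intro k
    obtain ⟨H, h1, h2⟩ := ((eventually_ge_atTop 1).and (hQ0.eventually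
      (gt_mem_nhds (show (0 : ℝ) < (1 / 2 : ℝ) ^ k by positivity)))).exists
    exact ⟨H, h1, h2.le⟩
  choose H hH1 hH2 using hch
  choose p hp hlim using fun k => mean_erg U (Q (H k))
  have hlim' : ∀ k, Tendsto (fun N => tavg U 1 N (Q (H k))) atTop (𝓝 (p k)) := by
    intro k
    refine (hlim k).congr fun J => ?_
    rw [tavg_one]
  have hpn : ∀ k, ‖p k‖ ≤ (1 / 2 : ℝ) ^ k := fun k =>
    le_of_tendsto (hlim' k).norm (Eventually.of_forall fun N =>
      (norm_tavg_le U _ N).trans (hH2 k))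
  have hp0 := ae_tendsto_zero_of_small p hpn
  refine ⟨fun k N => tavg U 1 N (Q (H k)) - p k, fun k => ?_, ?_⟩
  · simpa using (hlim' k).sub_const (p k)
  have hcoe : ∀ᵐ x ∂μ, ∀ k N : ℕ, (tavg U 1 N (Q (H k)) - p k : Lp ℂ 2 μ) x =
      (N : ℂ)⁻¹ * ∑ n ∈ range N, q (H k) (T^[n] x) - p k x := by
    rw [ae_all_iff]; intro k
    rw [ae_all_iff]; intro N
    filter_upwards [Lp.coeFn_sub (tavg U 1 N (Q (H k))) (p k),
      avg_coe hT (memLp_bdd (μ := μ) (hqm (H k)) (hq1 (H k))) 1 N] with x h1 h2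
    rw [h1, Pi.sub_apply]
    congr 1
    refine h2.trans ?_
    congr 1
    refine Finset.sum_congr rfl fun n _ => ?_
    rw [one_pow, one_mul]
  filter_upwards [hcoe, hp0] with x h1 h2 N hN hK ε hε
  have h3 : ∀ᶠ k in atTop, ‖p k x‖ < ε := by
    have := h2.norm
    rw [norm_zero] at this
    exact this.eventually (gt_mem_nhds hε)
  obtain ⟨k, hk⟩ := h3.exists
  refine ⟨H k, hH1 k, ?_⟩
  have c1 := hK k
  simp only [h1] at c1
  have c2 := (c1.add_const (p k x)).norm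
  simp only [sub_add_cancel, zero_add] at c2
  filter_upwards [c2.eventually (gt_mem_nhds hk)] with i hi
  refine le_of_eq_of_le ?_ hi.le
  have e1 : ((N i : ℕ) : ℂ)⁻¹ * ∑ n ∈ range (N i), q (H k) (T^[n] x) =
      ((((N i : ℕ) : ℝ)⁻¹ * ∑ n ∈ range (N i), ‖w (H k) (T^[n] x)‖ ^ 2 : ℝ) : ℂ) := by
    simp only [hq]
    push_cast; rfl
  rw [e1, Complex.norm_real, Real.norm_of_nonneg (by positivity)]
  congr 1
  refine Finset.sum_congr rfl fun n _ => ?_
  simp only [hw]
  congr 3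
  refine Finset.sum_congr rfl fun h _ => ?_
  rw [← Function.iterate_add_apply, add_comm n h]

end

end Pool.Agent.V5helper76.NR
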